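import Pool.Agent.Lib.MP_7bc51d_an_cross.Tri
import Pool.Agent.Lib.MP_7bc51d_an.Generic

set_option autoImplicit false

namespace Pool.Agent.Lib.MP_7bc51d_an.Retired.Crossing

open MeasureTheory Filter Topology

/-- `(i, j)` is a side of the convex polygon with vertices `v`, oriented counterclockwise: all
other vertices lie strictly to the left of the line from `v i` to `v j`. -/
def Side {n : ℕ} (v : Fin n → ℂ) (i j : Fin n) : Prop :=
  i ≠ j ∧ ∀ k : Fin n, k ≠ i → k ≠ j → 0 < ((starRingEnd ℂ) (v j - v i) * (v k - v i)).im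

/-- No two sides are parallel. -/
def NoParallelSides {n : ℕ} (v : Fin n → ℂ) : Prop :=
  ∀ i j k l : Fin n, Side v i j → Side v k l → i ≠ k →
    ((starRingEnd ℂ) (v j - v i) * (v l - v k)).im ≠ 0

/-- The invariance hypotheses of `S05131`: `A` is measurable, invariant under positive scaling of
the velocity, and almost everywhere invariant under the billiard flow. -/
def BilliardInvariant {n : ℕ} (v : Fin n → ℂ) (A : Set (ℂ × ℂ)) : Prop :=
  MeasurableSet A ∧
  (∀ x w : ℂ, ∀ c : ℝ, 0 < c → ((x, w) ∈ A ↔ (x, (c : ℂ) * w) ∈ A)) ∧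
  (∀ᵐ p ∂(volume : Measure (ℂ × ℂ)),
    p.1 ∈ interior (convexHull ℝ (Set.range v)) → p.2 ≠ 0 →
    ∀ τ : ℝ, 0 < τ →
      p.1 + (τ : ℂ) * p.2 ∈ frontier (convexHull ℝ (Set.range v)) →
      (∀ s : ℝ, 0 ≤ s → s < τ → (p ∈ A ↔ (p.1 + (s : ℂ) * p.2, p.2) ∈ A)) ∧
      (p.1 + (τ : ℂ) * p.2 ∉ Set.range v →
        ∀ i j : Fin n, i ≠ j → p.1 + (τ : ℂ) * p.2 ∈ segment ℝ (v i) (v j) →
          ∀ σ : ℝ, 0 < σ →
            p.1 + (τ : ℂ) * p.2 + (σ : ℂ) *
                ((v j - v i) / (starRingEnd ℂ) (v j - v i) * (starRingEnd ℂ) p.2)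
              ∈ frontier (convexHull ℝ (Set.range v)) →
            ∀ r : ℝ, 0 < r → r < σ →
              (p ∈ A ↔
                (p.1 + (τ : ℂ) * p.2 + (r : ℂ) *
                    ((v j - v i) / (starRingEnd ℂ) (v j - v i) * (starRingEnd ℂ) p.2),
                  (v j - v i) / (starRingEnd ℂ) (v j - v i) * (starRingEnd ℂ) p.2) ∈ A)))

/-- The part of the phase space with velocities in the unit disc. -/
def Phase {n : ℕ} (v : Fin n → ℂ) : Set (ℂ × ℂ) :=
  interior (convexHull ℝ (Set.range v)) ×ˢ Metric.ball (0 : ℂ) 1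

/-- The relative measure of `A` in the phase space. -/
noncomputable def relMeasure {n : ℕ} (v : Fin n → ℂ) (A : Set (ℂ × ℂ)) : ℝ :=
  (volume (A ∩ Phase v)).toReal / (volume (Phase v)).toReal

/-- The crossing number of `A` and `B`: the mean over the position `x` in the polygon and two
independent uniform directions `θ`, `θ'` of `2 sin² (θ - θ')`, counted if `(x, exp (iθ)) ∈ A` and
`(x, exp (iθ')) ∈ B`. -/
noncomputable def crossing {n : ℕ} (v : Fin n → ℂ) (A B : Set (ℂ × ℂ)) : ℝ :=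
  (∫ x in interior (convexHull ℝ (Set.range v)),
    ∫ θ in Set.Ioo (-Real.pi) Real.pi, ∫ θ' in Set.Ioo (-Real.pi) Real.pi,
      A.indicator 1 (x, Complex.exp ((θ : ℂ) * Complex.I)) *
        B.indicator 1 (x, Complex.exp ((θ' : ℂ) * Complex.I)) * (2 * Real.sin (θ - θ') ^ 2)) /
  ((volume (interior (convexHull ℝ (Set.range v)))).toReal * (2 * Real.pi) ^ 2)

theorem side_iff {n : ℕ} (v : Fin n → ℂ) (i j : Fin n) : Side v i j ↔ Lib.Bil.IsSide v i j := by
  unfold Side Lib.Bil.IsSide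
  simp only [Lib.Bil.cr_eq_im]

theorem is_of {n : ℕ} {v : Fin n → ℂ} (hv : ConvexIndependent ℝ v) {A : Set (ℂ × ℂ)}
    (hA : BilliardInvariant v A) : Lib.BilX.IS v A :=
  ⟨hA.1, hA.2.1, Lib.Bil.inv_of_hyp hv hA.2.2, Lib.Bil.chord_of_hyp hA.2.2⟩

theorem exp_ut (θ : ℝ) : Complex.exp ((θ : ℂ) * Complex.I) = Lib.Bil.ut θ := by
  rw [Complex.exp_mul_I, Lib.Bil.ut, Complex.ofReal_cos, Complex.ofReal_sin]

theorem crossing_eq {n : ℕ} (v : Fin n → ℂ) (A B : Set (ℂ × ℂ)) :
    crossing v A B = Lib.BilX.JJ v A B := by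
  unfold crossing Lib.BilX.JJ Lib.BilX.ar Lib.BilX.cro Lib.BilX.dI
  simp only [exp_ut]
  have h1 : ∀ x : ℂ, ∫ θ in Set.Ioo (-Real.pi) Real.pi, ∫ θ' in Set.Ioo (-Real.pi) Real.pi,
      A.indicator (1 : ℂ × ℂ → ℝ) (x, Lib.Bil.ut θ) *
        B.indicator (1 : ℂ × ℂ → ℝ) (x, Lib.Bil.ut θ') * (2 * Real.sin (θ - θ') ^ 2) =
      2 * ∫ θ in Set.Ioo (-Real.pi) Real.pi, ∫ θ' in Set.Ioo (-Real.pi) Real.pi,
      A.indicator (1 : ℂ × ℂ → ℝ) (x, Lib.Bil.ut θ) *
        B.indicator (1 : ℂ × ℂ → ℝ) (x, Lib.Bil.ut θ') * Real.sin (θ - θ') ^ 2 := by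
    intro x
    rw [← integral_const_mul]
    congr 1
    funext θ
    rw [← integral_const_mul]
    congr 1
    funext θ'
    ring
  simp_rw [h1]
  rw [integral_const_mul]
  change 2 * _ / ((volume (Lib.Bil.PP v)).toReal * (2 * Real.pi) ^ 2) = _
  rw [show (volume (Lib.Bil.PP v)).toReal * (2 * Real.pi) ^ 2 =
    2 * (2 * Real.pi ^ 2 * (volume (Lib.Bil.PP v)).toReal) by ring,
    mul_div_mul_left _ _ two_ne_zero]
  rfl

theorem relMeasure_eq {n : ℕ} (hn : 3 ≤ n) {v : Fin n → ℂ} (hv : ConvexIndependent ℝ v)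
    {A : Set (ℂ × ℂ)} (hA : MeasurableSet A) : relMeasure v A = Lib.BilX.mm v A :=
  (Lib.BilX.mm_vol hn hv hA).symm

theorem eg_par {n : ℕ} (hn : 3 ≤ n) {v : Fin n → ℂ} (hv : ConvexIndependent ℝ v)
    (hp : NoParallelSides v) (i k : Fin n) (hik : i ≠ k) :
    Lib.Bil.cr (Lib.BilX.eg hn hv i) (Lib.BilX.eg hn hv k) ≠ 0 := by
  rw [Lib.Bil.cr_eq_im]
  exact hp i _ k _ ((side_iff v _ _).2 (Lib.Bil.nxt_side hn hv i))
    ((side_iff v _ _).2 (Lib.Bil.nxt_side hn hv k)) hik

theorem ae_noParallel (n : ℕ) (hn : 3 ≤ n) : ∀ᵐ v ∂(volume : Measure (Fin n → ℂ)),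
    ConvexIndependent ℝ v → NoParallelSides v := by
  filter_upwards [Lib.Bil.ae_irr n] with v hirr hv i j k l h1 h2 hik
  rw [side_iff] at h1 h2
  have hjl : l ≠ j := by
    rintro rfl
    exact hik (Lib.Bil.prev_unique h1 h2)
  have hdist : (l ≠ i ∧ l ≠ j) ∨ (k ≠ i ∧ k ≠ j) := by
    by_cases hli : l = i
    · right
      refine ⟨hik.symm, ?_⟩
      rintro rfl
      subst hli
      exact Lib.Bil.not_both_sides hn h1 h2
    · left
      exact ⟨hli, hjl⟩
  have h3 := hirr i j k l h1.1 h2.1 hdist 1 one_pos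
  rw [pow_one] at h3
  intro h4
  apply h3
  have h5 : v l - v k ≠ 0 := Lib.Bil.v_sub_ne hv h2.1
  have h6 : ((v j - v i) / (v l - v k)).im * Complex.normSq (v l - v k) =
      - ((starRingEnd ℂ) (v j - v i) * (v l - v k)).im := by
    have h7 : Complex.normSq (v l - v k) ≠ 0 := by rwa [ne_eq, Complex.normSq_eq_zero]
    rw [Complex.div_im]
    simp only [Complex.mul_im, Complex.conj_re, Complex.conj_im]
    field_simp
    ring
  rw [h4, neg_zero] at h6
  exact (mul_eq_zero.1 h6).resolve_right (fun h => h5 (Complex.normSq_eq_zero.1 h))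

/-- Quasi-independence of invariant sets of polygonal billiards: the crossing number of two
invariant sets is comparable to the product of their measures, with constants depending only on
the polygon; the lower constant is positive if no two sides are parallel (almost every polygon),
and in a triangle the crossing number is equal to the product. -/
theorem result :
    ∀ n : ℕ, 3 ≤ n →
      (∀ᵐ v ∂(volume : Measure (Fin n → ℂ)), ConvexIndependent ℝ v → NoParallelSides v) ∧
      (∀ v : Fin n → ℂ, ConvexIndependent ℝ v →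
        ∃ c C : ℝ, 0 ≤ c ∧ 0 < C ∧ (NoParallelSides v → 0 < c) ∧ (n = 3 → c = 1 ∧ C = 1) ∧
          ∀ A B : Set (ℂ × ℂ), BilliardInvariant v A → BilliardInvariant v B →
            c * (relMeasure v A * relMeasure v B) ≤ crossing v A B ∧
            crossing v A B ≤ C * (relMeasure v A * relMeasure v B) ∧
            crossing v A A * crossing v B B ≤ crossing v A B ^ 2 ∧
            (0 < relMeasure v A → 0 < relMeasure v B → 0 < crossing v A B)) := by
  intro n hn
  refine ⟨ae_noParallel n hn, fun v hv => ?_⟩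
  have base : ∀ A B : Set (ℂ × ℂ), BilliardInvariant v A → BilliardInvariant v B →
      crossing v A A * crossing v B B ≤ crossing v A B ^ 2 ∧
      (0 < relMeasure v A → 0 < relMeasure v B → 0 < crossing v A B) := by
    intro A B hA hB
    have iA := is_of hv hA
    have iB := is_of hv hB
    simp only [crossing_eq, relMeasure_eq hn hv hA.1, relMeasure_eq hn hv hB.1]
    exact ⟨Lib.BilX.JJ_rcs hn hv iA iB, Lib.BilX.JJ_pos hn hv iA iB⟩
  by_cases h3 : n = 3
  · subst h3
    refine ⟨1, 1, zero_le_one, one_pos, fun _ => one_pos, fun _ => ⟨rfl, rfl⟩, ?_⟩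
    intro A B hA hB
    have h : crossing v A B = relMeasure v A * relMeasure v B := by
      rw [crossing_eq, relMeasure_eq hn hv hA.1, relMeasure_eq hn hv hB.1]
      exact Lib.BilX.JJ_tri hn hv (is_of hv hA) (is_of hv hB)
    exact ⟨by rw [h, one_mul], by rw [h, one_mul], (base A B hA hB).1, (base A B hA hB).2⟩
  · obtain ⟨C, hC, hup⟩ := Lib.BilX.JJ_upper hn hv
    have up : ∀ A B : Set (ℂ × ℂ), BilliardInvariant v A → BilliardInvariant v B →
        crossing v A B ≤ C * (relMeasure v A * relMeasure v B) := by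
      intro A B hA hB
      rw [crossing_eq, relMeasure_eq hn hv hA.1, relMeasure_eq hn hv hB.1]
      exact hup A B (is_of hv hA) (is_of hv hB)
    by_cases hp : NoParallelSides v
    · obtain ⟨c, hc, hlow⟩ := Lib.BilX.JJ_lower hn hv (eg_par hn hv hp)
      refine ⟨c, C, hc.le, hC, fun _ => hc, fun h => absurd h h3, ?_⟩
      intro A B hA hB
      refine ⟨?_, up A B hA hB, (base A B hA hB).1, (base A B hA hB).2⟩
      rw [crossing_eq, relMeasure_eq hn hv hA.1, relMeasure_eq hn hv hB.1]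
      exact hlow A B (is_of hv hA) (is_of hv hB)
    · refine ⟨0, C, le_rfl, hC, fun h => absurd h hp, fun h => absurd h h3, ?_⟩
      intro A B hA hB
      refine ⟨?_, up A B hA hB, (base A B hA hB).1, (base A B hA hB).2⟩
      rw [zero_mul, crossing_eq]
      exact Lib.BilX.JJ_nonneg v A B

end Pool.Agent.Lib.MP_7bc51d_an.Retired.Crossing
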