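import Pool.Agent.Lib.MP_7bc51d_an.Final
import Pool.Agent.Lib.MP_7bc51d_an.Generic

set_option autoImplicit false

namespace Pool.Agent.Lib.MP_7bc51d_an.Retired.FinitePerimeter

open MeasureTheory Filter Topology

/-- Two sides of the polygon with vertices `v` have directions whose angle is an irrational
multiple of `π`: the segments `[v i, v j]` and `[v k, v l]` lie in the boundary of the convex hull
and no positive power of `(v j - v i) / (v l - v k)` is real. -/
def IrrationalSides {n : ℕ} (v : Fin n → ℂ) : Prop :=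
  ∃ i j k l : Fin n, i ≠ j ∧ k ≠ l ∧
    segment ℝ (v i) (v j) ⊆ frontier (convexHull ℝ (Set.range v)) ∧
    segment ℝ (v k) (v l) ⊆ frontier (convexHull ℝ (Set.range v)) ∧
    ∀ m : ℕ, 0 < m → (((v j - v i) / (v l - v k)) ^ m).im ≠ 0

/-- Billiards in a convex polygon with two sides at an irrational angle (in particular in almost
every convex polygon) have no nontrivial invariant set of finite angular perimeter. -/
theorem result :
    ∀ n : ℕ, 3 ≤ n →
      (∀ᵐ v ∂(volume : Measure (Fin n → ℂ)), ConvexIndependent ℝ v → IrrationalSides v) ∧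
      ∀ v : Fin n → ℂ, ConvexIndependent ℝ v → IrrationalSides v →
      ∀ A : Set (ℂ × ℂ), MeasurableSet A →
        (∀ x w : ℂ, ∀ c : ℝ, 0 < c → ((x, w) ∈ A ↔ (x, (c : ℂ) * w) ∈ A)) →
        (∀ᵐ p ∂(volume : Measure (ℂ × ℂ)),
          p.1 ∈ interior (convexHull ℝ (Set.range v)) → p.2 ≠ 0 →
          ∀ τ : ℝ, 0 < τ →
            p.1 + (τ : ℂ) * p.2 ∈ frontier (convexHull ℝ (Set.range v)) →
            (∀ s : ℝ, 0 ≤ s → s < τ → (p ∈ A ↔ (p.1 + (s : ℂ) * p.2, p.2) ∈ A)) ∧
            (p.1 + (τ : ℂ) * p.2 ∉ Set.range v →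
              ∀ i j : Fin n, i ≠ j → p.1 + (τ : ℂ) * p.2 ∈ segment ℝ (v i) (v j) →
                ∀ σ : ℝ, 0 < σ →
                  p.1 + (τ : ℂ) * p.2 + (σ : ℂ) *
                      ((v j - v i) / (starRingEnd ℂ) (v j - v i) * (starRingEnd ℂ) p.2)
                    ∈ frontier (convexHull ℝ (Set.range v)) →
                  ∀ r : ℝ, 0 < r → r < σ →
                    (p ∈ A ↔
                      (p.1 + (τ : ℂ) * p.2 + (r : ℂ) *
                          ((v j - v i) / (starRingEnd ℂ) (v j - v i) * (starRingEnd ℂ) p.2),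
                        (v j - v i) / (starRingEnd ℂ) (v j - v i) * (starRingEnd ℂ) p.2) ∈ A))) →
        (∃ C : ℝ, ∃ᶠ δ : ℝ in 𝓝[>] (0 : ℝ),
          volume {p : ℂ × ℂ | p.1 ∈ interior (convexHull ℝ (Set.range v)) ∧
            p.2 ∈ Metric.ball (0 : ℂ) 1 ∧
            ¬ (p ∈ A ↔ (p.1, Complex.exp ((δ : ℂ) * Complex.I) * p.2) ∈ A)} ≤
            ENNReal.ofReal (C * δ)) →
        volume (A ∩ (interior (convexHull ℝ (Set.range v)) ×ˢ Metric.ball (0 : ℂ) 1)) = 0 ∨
          volume ((interior (convexHull ℝ (Set.range v)) ×ˢ Metric.ball (0 : ℂ) 1) \ A) = 0 := by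
  intro n hn
  constructor
  · filter_upwards [Lib.Bil.ae_irr n] with v hirr hv
    obtain ⟨i, j, k, l, hij, hkl, hd⟩ := Lib.Bil.two_sides hn hv
    exact ⟨i, j, k, l, hij.1, hkl.1, hij.segment_subset hv, hkl.segment_subset hv,
      hirr i j k l hij.1 hkl.1 hd⟩
  · intro v hv hirr A hA hcone H hP
    have hI : Lib.Bil.Inv v A := Lib.Bil.inv_of_hyp hv H
    have hch := Lib.Bil.chord_of_hyp (v := v) H
    have hPer : Lib.Bil.Per v A := by
      obtain ⟨C, hC⟩ := hP
      refine ⟨C, hC.mono (fun δ hδ => ?_)⟩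
      refine le_trans (le_of_eq ?_) hδ
      congr 1
      ext p
      simp only [Lib.Bil.BB, Lib.Bil.DD, Set.mem_ofPred_eq, Set.mem_prod, and_assoc]
      rw [mul_comm Complex.I]
      exact Iff.rfl
    have hconst := Lib.Bil.slice_const hn hv hA hI hch hPer
    obtain ⟨i, j, k, l, hij, hkl, s1, s2, him⟩ := hirr
    have hneg : ∀ z : ℂ, ∀ m : ℕ, (z ^ m).im ≠ 0 → ((-z) ^ m).im ≠ 0 := by
      intro z m h
      rw [neg_pow]
      rcases neg_one_pow_eq_or ℂ m with h1 | h1
      · rw [h1, one_mul]; exact h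
      · rw [h1, neg_one_mul, Complex.neg_im]; exact neg_ne_zero.2 h
    rcases Lib.Bil.side_of_segment hn hv hij s1 with h1 | h1 <;>
      rcases Lib.Bil.side_of_segment hn hv hkl s2 with h2 | h2
    · exact Lib.Bil.final hn hv hA hcone hI hconst h1 h2 him
    · refine Lib.Bil.final hn hv hA hcone hI hconst h1 h2 (fun m hm => ?_)
      have := hneg _ m (him m hm)
      convert this using 3
      rw [← neg_sub (v l) (v k), div_neg]
    · refine Lib.Bil.final hn hv hA hcone hI hconst h1 h2 (fun m hm => ?_)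
      have := hneg _ m (him m hm)
      convert this using 3
      rw [← neg_sub (v j) (v i), neg_div]
    · refine Lib.Bil.final hn hv hA hcone hI hconst h1 h2 (fun m hm => ?_)
      have := him m hm
      convert this using 3
      rw [← neg_sub (v j) (v i), ← neg_sub (v l) (v k), neg_div_neg_eq]

end Pool.Agent.Lib.MP_7bc51d_an.Retired.FinitePerimeter
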