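import Pool.Agent.Lib.MP_7bc51d_an.Cont2
import Pool.Agent.Lib.MP_7bc51d_an.Generic

set_option autoImplicit false

namespace Pool.Agent.Lib.MP_7bc51d_an.Retired.PositionContinuous

open MeasureTheory Filter Topology

/-- All angles of the convex polygon with vertices `v` are irrational multiples of `π`: if the
segments from `v j` to `v i` and to `v k` both lie in the boundary of the convex hull, then no
positive power of `(v i - v j) / (v k - v j)` is real. -/
def IrrationalAngles {n : ℕ} (v : Fin n → ℂ) : Prop :=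
  ∀ i j k : Fin n, i ≠ j → k ≠ j → i ≠ k →
    segment ℝ (v j) (v i) ⊆ frontier (convexHull ℝ (Set.range v)) →
    segment ℝ (v j) (v k) ⊆ frontier (convexHull ℝ (Set.range v)) →
    ∀ m : ℕ, 0 < m → (((v i - v j) / (v k - v j)) ^ m).im ≠ 0

/-- The function `f` on phase points `(x, w)` is measurable, invariant under positive scaling of the
velocity `w`, and invariant under the billiard flow in the convex hull of `v` (the hypotheses of the
frozen statement, for functions instead of sets). -/
def BilliardInvariant {n : ℕ} (v : Fin n → ℂ) (f : ℂ × ℂ → ℝ) : Prop :=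
  Measurable f ∧
  (∀ x w : ℂ, ∀ c : ℝ, 0 < c → f (x, w) = f (x, (c : ℂ) * w)) ∧
  (∀ᵐ p ∂(volume : Measure (ℂ × ℂ)),
    p.1 ∈ interior (convexHull ℝ (Set.range v)) → p.2 ≠ 0 →
    ∀ τ : ℝ, 0 < τ →
      p.1 + (τ : ℂ) * p.2 ∈ frontier (convexHull ℝ (Set.range v)) →
      (∀ s : ℝ, 0 ≤ s → s < τ → f p = f (p.1 + (s : ℂ) * p.2, p.2)) ∧
      (p.1 + (τ : ℂ) * p.2 ∉ Set.range v →
        ∀ i j : Fin n, i ≠ j → p.1 + (τ : ℂ) * p.2 ∈ segment ℝ (v i) (v j) →
          ∀ σ : ℝ, 0 < σ →
            p.1 + (τ : ℂ) * p.2 + (σ : ℂ) *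
                ((v j - v i) / (starRingEnd ℂ) (v j - v i) * (starRingEnd ℂ) p.2)
              ∈ frontier (convexHull ℝ (Set.range v)) →
            ∀ r : ℝ, 0 < r → r < σ →
              f p =
                f (p.1 + (τ : ℂ) * p.2 + (r : ℂ) *
                    ((v j - v i) / (starRingEnd ℂ) (v j - v i) * (starRingEnd ℂ) p.2),
                  (v j - v i) / (starRingEnd ℂ) (v j - v i) * (starRingEnd ℂ) p.2)))

/-- For almost every velocity `w` the function `x ↦ f (x, w)` agrees almost everywhere in the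
polygon with a function that is continuous on the open polygon. -/
def ContinuousSlices {n : ℕ} (v : Fin n → ℂ) (f : ℂ × ℂ → ℝ) : Prop :=
  ∀ᵐ w : ℂ, ∃ g : ℂ → ℝ, ContinuousOn g (interior (convexHull ℝ (Set.range v))) ∧
    ∀ᵐ x : ℂ, x ∈ interior (convexHull ℝ (Set.range v)) → f (x, w) = g x

/-- In a convex polygon all of whose angles are irrational multiples of `π`, every invariant
function that is continuous in the position for almost every direction is constant. -/
theorem result :
    ∀ n : ℕ, 3 ≤ n →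
      (∀ᵐ v ∂(volume : Measure (Fin n → ℂ)), ConvexIndependent ℝ v → IrrationalAngles v) ∧
      ∀ v : Fin n → ℂ, ConvexIndependent ℝ v → IrrationalAngles v →
      ∀ f : ℂ × ℂ → ℝ, BilliardInvariant v f → ContinuousSlices v f →
        ∃ c : ℝ, ∀ᵐ p ∂(volume : Measure (ℂ × ℂ)),
          p ∈ interior (convexHull ℝ (Set.range v)) ×ˢ Metric.ball (0 : ℂ) 1 → f p = c := by
  intro n hn
  constructor
  · filter_upwards [Lib.Bil.ae_irr n] with v hirr hv i j k hij hkj hik _ _
    exact hirr j i j k hij.symm hkj.symm (Or.inl ⟨hkj, hik.symm⟩)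
  · intro v hv hirr f hf hc
    refine Lib.Bil.cont_const hn hv ?_ hf.1 hf.2.1 hf.2.2 hc
    intro p k q hkq hpk m hm
    refine hirr q k p hkq.1.symm hpk.1 ?_ (hkq.segment_subset hv) ?_ m hm
    · rintro rfl
      exact Lib.Bil.not_both_sides hn hkq hpk
    · rw [segment_symm]
      exact hpk.segment_subset hv

end Pool.Agent.Lib.MP_7bc51d_an.Retired.PositionContinuous
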